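import Mathlib
import Pool.Agent.Helper43.UN.GoalsG

/-!
# Project UN, packet E13n: the special points satisfy `Ext` (adapted from `Helper19/UW/E13v.lean`)
-/

set_option autoImplicit false

namespace Pool.Agent.Helper30.UN

open Finset Pool.Agent.Helper43.UN
open Pool.Agent.Helper18.UW (Par4 UGrp uV uO uK uD uS uN uQ GoalUG GoalG7u)
open Pool.Agent.Helper43.Hw (T na va lz Play aa ac sc oo sk U Dd Sd Pn nx bb np)

theorem two_T (n : ℕ) : 2 * T n = n * (n + 1) := by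
  unfold T
  exact Nat.mul_div_cancel' (Nat.even_mul_succ_self n).two_dvd

theorem T_succ (n : ℕ) : T (n + 1) = T n + (n + 1) := by
  have h1 := two_T n
  have h2 := two_T (n + 1)
  nlinarith

/-- the arithmetic progression -/
theorem sum_len {R s βp βm : ℕ} {ℓ : ℕ → ℕ}
    (hL : ∀ y, s ≤ y → y + 1 < R → ℓ (y + 1) + βm = ℓ y + βp) :
    ∀ d y : ℕ, s ≤ y → y + d + 1 = R →
      ∑ z ∈ range y, ℓ z + (d + 1) * ℓ y + βp * T d = ∑ z ∈ range R, ℓ z + βm * T d := by
  intro d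
  induction d with
  | zero =>
    intro y hy hR
    have h0 : T 0 = 0 := by
      have := two_T 0
      omega
    rw [← hR, h0, mul_zero, mul_zero, add_zero, add_zero, add_zero, sum_range_succ]
    ring
  | succ d ih =>
    intro y hy hR
    have h1 := ih (y + 1) (by omega) (by omega)
    have h2 := hL y hy (by omega)
    rw [sum_range_succ] at h1
    rw [T_succ]
    zify at h1 h2 ⊢
    linear_combination h1 - (d + 1) * h2

theorem par4 {μ R K b l Lg q : ℕ} (par : Par4 μ R K b l Lg q) :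
    2 ^ 33 * (K * l) ≤ μ ∧ 2 ^ 75 * l ≤ μ := by
  have hb : 2 ^ 42 ≤ b := by
    have := par.b1
    have := par.L1
    nlinarith
  have hq : 1 ≤ (q + 1) ^ 2 := Nat.one_le_pow _ _ (by omega)
  have h2 := par.b2
  have hl := par.l1
  have e1 : 2 ^ 33 * (b * l) ≤ μ := by
    calc 2 ^ 33 * (b * l) ≤ 2 ^ 33 * (b * l) * (q + 1) ^ 2 := Nat.le_mul_of_pos_right _ hq
      _ = 2 ^ 33 * b * (q + 1) ^ 2 * l := by ring
      _ ≤ μ := h2
  have e2 : 2 ^ 33 * (K * l) ≤ μ := by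
    rw [par.hK]
    calc 2 ^ 33 * (b * (q + 1) * l) ≤ 2 ^ 33 * (b * (q + 1) * l) * (q + 1) :=
          Nat.le_mul_of_pos_right _ (by omega)
      _ = 2 ^ 33 * b * (q + 1) ^ 2 * l := by ring
      _ ≤ μ := h2
  refine ⟨e2, ?_⟩
  calc 2 ^ 75 * l = 2 ^ 33 * (2 ^ 42 * l) := by ring
    _ ≤ 2 ^ 33 * (b * l) := by gcongr
    _ ≤ μ := e1

theorem goalE13n (h2 : GoalUG) (h7 : GoalG7u) : GoalE13n := by
  intro μ δ R A N K b l Lg q τ s E βp βm ℓ ms e P W hμ hP hG hlo hA9 hL hW hV hgr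
  obtain ⟨⟨g1, g2, g3, g4⟩, g5, g6, f1, f2, f3, fm, f4, f5⟩ := h2 μ δ R K τ s E ms e P hG
  have hts := hG.ts
  have ht1 := hG.t1
  have hJs := hG.Js
  have hmul : 128 * l * K ≤ μ := by
    refine le_trans ?_ hP.b2
    rw [hP.hK]
    have h0 : b * (q + 1) ≤ b * (q + 1) ^ 2 :=
      Nat.mul_le_mul_left _ (Nat.le_self_pow (by norm_num) _)
    calc 128 * l * (b * (q + 1)) ≤ 128 * l * (b * (q + 1) ^ 2) := Nat.mul_le_mul_left _ h0
      _ = 128 * (b * (q + 1) ^ 2 * l) := by ring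
      _ ≤ 2 ^ 33 * (b * (q + 1) ^ 2 * l) := Nat.mul_le_mul_right _ (by norm_num)
      _ = 2 ^ 33 * b * (q + 1) ^ 2 * l := by ring
  -- the bound for the number of skips
  have hQ : ∀ w, 2 ^ 24 * uQ R K τ s ms e P w ≤ 2 ^ 24 * K + (w + 1) * b := by
    intro w
    have h := h7 μ δ R K τ s E l w ms e P hμ hP.l1 hG hmul hgr
    have hb2 : 2 ^ 31 * b * (q + 1) ^ 2 * l ≤ μ := by
      refine le_trans ?_ hP.b2
      have : 2 ^ 31 * (b * (q + 1) ^ 2 * l) ≤ 2 ^ 33 * (b * (q + 1) ^ 2 * l) :=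
        Nat.mul_le_mul_right _ (by norm_num)
      calc 2 ^ 31 * b * (q + 1) ^ 2 * l = 2 ^ 31 * (b * (q + 1) ^ 2 * l) := by ring
        _ ≤ 2 ^ 33 * (b * (q + 1) ^ 2 * l) := this
        _ = 2 ^ 33 * b * (q + 1) ^ 2 * l := by ring
    have h3 : 2 ^ 24 * (128 * l * K ^ 2 * (w + 1)) ≤ μ * ((w + 1) * b) := by
      have : 2 ^ 24 * (128 * l * K ^ 2 * (w + 1)) =
          (2 ^ 31 * b * (q + 1) ^ 2 * l) * ((w + 1) * b) := by
        rw [hP.hK]
        ring
      rw [this]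
      exact Nat.mul_le_mul_right _ hb2
    have h4 : μ * (2 ^ 24 * uQ R K τ s ms e P w) ≤ μ * (2 ^ 24 * K + (w + 1) * b) := by
      calc μ * (2 ^ 24 * uQ R K τ s ms e P w) = 2 ^ 24 * (μ * uQ R K τ s ms e P w) := by ring
        _ ≤ 2 ^ 24 * (μ * K + 128 * l * K ^ 2 * (w + 1)) := Nat.mul_le_mul_left _ h
        _ = μ * (2 ^ 24 * K) + 2 ^ 24 * (128 * l * K ^ 2 * (w + 1)) := by ring
        _ ≤ μ * (2 ^ 24 * K) + μ * ((w + 1) * b) := Nat.add_le_add_left h3 _
        _ = μ * (2 ^ 24 * K + (w + 1) * b) := by ring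
    exact Nat.le_of_mul_le_mul_left h4 hμ
  refine ⟨by omega, ?_, ?_, ?_, ?_, ?_, f2, f3, ?_, ?_⟩
  · intro y hy hyR
    obtain ⟨e2, e3⟩ := par4 hP
    have hl := hP.l1
    have hv : uV R K τ s ms e P y ≤ K * μ := by
      refine (g3 y hyR).trans ?_
      calc ∑ i ∈ range K, ms i ≤ ∑ _i ∈ range K, μ :=
            sum_le_sum fun i hi => (hG.mm i (mem_range.1 hi)).2.1
        _ = K * μ := by rw [sum_const, card_range, smul_eq_mul]
    have hAy := hA9 y hy hyR
    have h5 : K * μ + 3 * μ ≤ ℓ y := by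
      have h6 : l * (10 * (K * μ + 3 * μ)) ≤ l * (10 * ℓ y) := by
        have a1 : 9 * (4 * μ ^ 2) ≤ l * (10 * ℓ y) := by
          calc 9 * (4 * μ ^ 2) ≤ 9 * (l * A) := Nat.mul_le_mul_left _ hlo
            _ = l * (9 * A) := by ring
            _ ≤ l * (10 * ℓ y) := Nat.mul_le_mul_left _ hAy
        have a2 : K * l * μ ≤ μ ^ 2 := by
          have : K * l ≤ μ := by omega
          calc K * l * μ ≤ μ * μ := Nat.mul_le_mul_right _ this
            _ = μ ^ 2 := by ring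
        have a3 : 30 * l * μ ≤ μ ^ 2 := by
          have : 30 * l ≤ μ := by omega
          calc 30 * l * μ ≤ μ * μ := Nat.mul_le_mul_right _ this
            _ = μ ^ 2 := by ring
        calc l * (10 * (K * μ + 3 * μ)) = 10 * (K * l * μ) + 30 * l * μ := by ring
          _ ≤ 10 * μ ^ 2 + μ ^ 2 := by omega
          _ ≤ 9 * (4 * μ ^ 2) := by omega
          _ ≤ l * (10 * ℓ y) := a1
      have h7 := Nat.le_of_mul_le_mul_left h6 hl
      omega
    show 3 * μ ≤ ℓ y - uV R K τ s ms e P y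
    omega
  · intro y hy hyR
    have h1 := hL y hy hyR
    have h3 := g5 y hy hyR
    have h4 := hV y (by omega)
    have h5' := hV (y + 1) hyR
    show ℓ (y + 1) - uV R K τ s ms e P (y + 1) + βm = ℓ y - uV R K τ s ms e P y + βp +
      uO R K τ s ms e P y + uK K τ s ms e P y
    omega
  · intro y hy hyR
    have hA := sum_len hL (R - 1 - y) y hy (by omega)
    have hRy : R - 1 - y + 1 = R - y := by omega
    rw [hRy] at hA
    have hB := g6 y hy hyR
    have hC : ∑ z ∈ range y, uV R K τ s ms e P z + ∑ z ∈ Ico y R, uV R K τ s ms e P z =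
        ∑ i ∈ range K, T (ms i) := by
      rw [← g4]
      exact sum_range_add_sum_Ico _ hyR.le
    have hD : ∑ z ∈ range y, (((ℓ z - uV R K τ s ms e P z : ℕ)) : ℤ) =
        ∑ z ∈ range y, (ℓ z : ℤ) - ∑ z ∈ range y, (uV R K τ s ms e P z : ℤ) := by
      rw [← sum_sub_distrib]
      apply sum_congr rfl
      intro z hz
      rw [mem_range] at hz
      exact Nat.cast_sub (hV z (by omega))
    have hE : (((ℓ y - uV R K τ s ms e P y : ℕ)) : ℤ) = ℓ y - uV R K τ s ms e P y :=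
      Nat.cast_sub (hV y hyR)
    have hA' : ∑ z ∈ range y, (ℓ z : ℤ) + ((R - y : ℕ) : ℤ) * ℓ y + βp * T (R - 1 - y) =
        ∑ z ∈ range R, (ℓ z : ℤ) + βm * T (R - 1 - y) := by exact_mod_cast hA
    have hB' : ∑ z ∈ Ico y R, (uV R K τ s ms e P z : ℤ) + uO R K τ s ms e P y * T (R - 1 - y) +
        uS R K τ s ms e P y =
        ((R - y : ℕ) : ℤ) * uV R K τ s ms e P y + uD R K τ s ms e P y := by exact_mod_cast hB
    have hC' : ∑ z ∈ range y, (uV R K τ s ms e P z : ℤ) +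
        ∑ z ∈ Ico y R, (uV R K τ s ms e P z : ℤ) = ∑ i ∈ range K, (T (ms i) : ℤ) := by
      exact_mod_cast hC
    show ∑ z ∈ range y, (((ℓ z - uV R K τ s ms e P z : ℕ)) : ℤ) +
      ((R - y : ℕ) : ℤ) * (((ℓ y - uV R K τ s ms e P y : ℕ)) : ℤ) +
      ((βp : ℤ) + uO R K τ s ms e P y) * T (R - 1 - y) + uS R K τ s ms e P y =
      N * T μ + W + uD R K τ s ms e P y + βm * T (R - 1 - y)
    rw [hD, hE]
    linear_combination hA' + hW + hB' - hC'
  · intro y hy hyR
    show uO R K τ s ms e P (y + 1) ≤ uO R K τ s ms e P y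
    rw [f1 y hy (by omega), f1 (y + 1) (by omega) hyR]
    exact fm _ _ (by omega)
  · intro z y hz hzy hyR
    show uO R K τ s ms e P z + uN R K τ s ms e P (R - 1 - y) ≤
      uO R K τ s ms e P y + uN R K τ s ms e P (R - 1 - z)
    rw [f1 y (by omega) hyR, f1 z hz (by omega)]
    omega
  · intro y hy hyR
    have hRy : R - 1 - y + 1 = R - y := by omega
    have h := hQ (R - 1 - y)
    rw [hRy] at h
    calc 2 ^ 24 * uS R K τ s ms e P y ≤
          2 ^ 24 * ((R - 1 - y) * uQ R K τ s ms e P (R - 1 - y)) :=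
          Nat.mul_le_mul_left _ (f4 y hy hyR)
      _ = (R - 1 - y) * (2 ^ 24 * uQ R K τ s ms e P (R - 1 - y)) := by ring
      _ ≤ (R - 1 - y) * (2 ^ 24 * K + (R - y) * b) := Nat.mul_le_mul_left _ h
  · intro y hy hyR
    have hRy : R - 1 - y + 1 = R - y := by omega
    have h := hQ (R - 1 - y)
    rw [hRy] at h
    exact (Nat.mul_le_mul_left _ (f5 y hy hyR)).trans h

end Pool.Agent.Helper30.UN
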