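import Mathlib
import Pool.Agent.Helper43.UN.GoalsH

/-!
# Project UN, packet ShN2: the exceptional shape, pencil with `k = 2`
-/

set_option autoImplicit false

namespace Pool.Agent.Helper30.UN

open Finset Pool.Agent.Helper43.UN
open Pool.Agent.Helper18.UW (lg)
open Pool.Agent.Helper18.SG (blk)
open Helper18.Cusp (Red rr kap)

theorem goalShN2 : GoalShN2 := by
  intro hT d M a hR hM hd ha7 ha8 hk hp
  obtain ⟨-, -, -, h4⟩ := hT d a hR
  have hf := h4 hd ha7
  obtain ⟨c1, c2, c3, c4, c5, c6, c7, c8⟩ := hR.chain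
  have hkap : kap d a + a 8 = a 0 := by
    unfold kap
    have hs := hR.hsum
    rw [Helper18.Cusp.sum9] at hs ⊢
    omega
  have hpos : 1 ≤ kap d a := by
    unfold kap
    have hs := hR.hsum
    omega
  set p := a 0 with hpdef
  set h := kap d a with hhdef
  -- the constants
  have hX : 2 ^ 401 * lg M ^ 3 * M = 2 * (2 ^ 400 * lg M ^ 3 * M) := by
    rw [show (2 : ℕ) ^ 401 = 2 ^ 400 * 2 from pow_succ 2 400]
    generalize (2 : ℕ) ^ 400 = u
    ring
  rw [hX] at hp
  have h16 : 16 * M ≤ 2 ^ 400 * lg M ^ 3 * M := by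
    have h1 : 1 ≤ lg M ^ 3 := Nat.one_le_pow _ _ (by unfold lg; omega)
    have h2 : (16 : ℕ) ≤ 2 ^ 400 := by
      calc (16 : ℕ) = 2 ^ 4 := by norm_num
        _ ≤ 2 ^ 400 := Nat.pow_le_pow_right (by norm_num) (by norm_num)
    generalize (2 : ℕ) ^ 400 = u at h2
    calc 16 * M ≤ u * 1 * M := Nat.mul_le_mul_right _ (by omega)
      _ ≤ u * lg M ^ 3 * M := by gcongr
  set X := 2 ^ 400 * lg M ^ 3 * M with hXdef
  have hlam : ∀ j, blk (rr d a) 2 j = rr d a (2 * j) + rr d a (2 * j + 1) := by
    intro j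
    simp [blk, Finset.sum_range_succ]
  -- values
  have fval : ∀ b, (b < p → rr d a b = min h (p - b)) ∧ (b = p → rr d a b = 1) ∧
      (p < b → rr d a b = 0) := by
    intro b
    rw [hf b]
    refine ⟨fun hb => by rw [if_pos hb], fun hb => ?_, fun hb => ?_⟩
    · rw [if_neg (by omega), if_pos hb]
    · rw [if_neg (by omega), if_neg (by omega)]
  have fle : ∀ b, rr d a b ≤ h := by
    intro b
    obtain ⟨v1, v2, v3⟩ := fval b
    rcases lt_trichotomy b p with hb | hb | hb
    · rw [v1 hb]; exact min_le_left _ _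
    · rw [v2 hb]; exact hpos
    · rw [v3 hb]; omega
  have feq : ∀ b, b ≤ a 8 → rr d a b = h := by
    intro b hb
    rw [(fval b).1 (by omega)]
    exact min_eq_left (by omega)
  have fstep : ∀ b, rr d a (b + 1) ≤ rr d a b ∧ rr d a b ≤ rr d a (b + 1) + 1 := by
    intro b
    obtain ⟨v1, v2, v3⟩ := fval b
    obtain ⟨w1, w2, w3⟩ := fval (b + 1)
    rcases lt_trichotomy b p with hb | hb | hb
    · rw [v1 hb]
      rcases lt_or_eq_of_le (show b + 1 ≤ p by omega) with hb1 | hb1
      · rw [w1 hb1]; omega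
      · rw [w2 hb1]; omega
    · rw [v2 hb, w3 (by omega)]; omega
    · rw [v3 hb, w3 (by omega)]; omega
  refine ⟨hM, le_rfl, by omega, by omega, ?_, by omega, by omega, ?_, ?_, ?_, ?_, ?_, ?_, ?_⟩
  · -- hAR
    norm_num
    omega
  · -- z
    rw [hlam, feq _ (by omega), feq _ (by omega)]
    omega
  · -- pos
    intro j hj
    rw [hlam]
    obtain ⟨v1, v2, v3⟩ := fval (2 * j)
    rcases lt_or_eq_of_le (show 2 * j ≤ p by omega) with hb | hb
    · rw [v1 hb]; omega
    · rw [v2 hb]; omega
  · -- anti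
    intro j _
    rw [hlam, hlam]
    have e1 := fstep (2 * j)
    have e2 := fstep (2 * j + 1)
    have e3 := fstep (2 * j + 1 + 1)
    have i1 : 2 * (j + 1) = 2 * j + 1 + 1 := by ring
    rw [i1]
    omega
  · -- str
    intro j hj
    by_cases hj8 : 2 * j + 3 ≤ a 8
    · right
      rw [hlam, feq _ (by omega)]
      omega
    · left
      rw [hlam, hlam]
      have e1 := fstep (2 * j)
      have e2 := fstep (2 * j + 1)
      have e3 := fstep (2 * j + 1 + 1)
      have i1 : 2 * (j + 1) = 2 * j + 1 + 1 := by ring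
      rw [i1]
      have key : rr d a (2 * j + 1 + 1 + 1) < rr d a (2 * j) ∨
          rr d a (2 * j + 1 + 1 + 1) < rr d a (2 * j + 1) := by
        obtain ⟨v1, v2, v3⟩ := fval (2 * j + 1)
        obtain ⟨w1, w2, w3⟩ := fval (2 * j + 1 + 1 + 1)
        obtain ⟨u1, u2, u3⟩ := fval (2 * j)
        rcases lt_trichotomy (2 * j + 1 + 1 + 1) p with hb | hb | hb
        · rw [w1 hb, v1 (by omega)]
          right
          omega
        · rw [w2 hb, v1 (by omega)]
          right
          omega
        · rw [w3 hb, v1 (by omega)]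
          right
          omega
      omega
  · -- lin
    intro j hj
    rw [hlam, hlam, feq _ (by omega), feq _ (by omega), feq _ (by omega), feq _ (by omega),
      add_zero]
  · -- nine
    intro j _ _
    rw [hlam, hlam]
    have e1 := fstep (2 * j)
    have e2 := fstep (2 * j + 1)
    have e3 := fstep (2 * j + 1 + 1)
    have i1 : 2 * (j + 1) = 2 * j + 1 + 1 := by ring
    rw [i1]
    omega
  · -- area
    have hpair : ∀ j ∈ range (p / 2 + 1), h ≤ blk (rr d a) 2 j + blk (rr d a) 2 (p / 2 + 1 - 1 - j) := by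
      intro j hj
      rw [mem_range] at hj
      rw [hlam, hlam]
      obtain ⟨v1, v2, v3⟩ := fval (2 * j)
      obtain ⟨w1, w2, w3⟩ := fval (2 * (p / 2 + 1 - 1 - j))
      rcases lt_or_eq_of_le (show 2 * j ≤ p by omega) with hb | hb
      · rcases lt_or_eq_of_le (show 2 * (p / 2 + 1 - 1 - j) ≤ p by omega) with hc | hc
        · rw [v1 hb, w1 hc]; omega
        · have : 2 * j = 0 := by omega
          have e0 := feq (2 * j) (by omega)
          omega
      · have : 2 * (p / 2 + 1 - 1 - j) = 0 := by omega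
        have e0 := feq (2 * (p / 2 + 1 - 1 - j)) (by omega)
        omega
    have hsum := Finset.sum_le_sum hpair
    rw [Finset.sum_const, card_range, smul_eq_mul, Finset.sum_add_distrib,
      Finset.sum_range_reflect (fun j => blk (rr d a) 2 j) (p / 2 + 1)] at hsum
    have : 2 * h * (p / 2 + 1) = 2 * ((p / 2 + 1) * h) := by ring
    rw [this]
    omega

end Pool.Agent.Helper30.UN
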